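import Pool.Agent.X115.HS.Stm

set_option autoImplicit false

namespace Pool.Agent.X193.HS
open MeasureTheory Set Filter Topology Real Pool.Agent.X115.HS

/-- iterated kernels -/
noncomputable def ck : ℕ → ℝ → ℂ
  | 0 => fun t => (Real.sin t : ℂ)
  | k+1 => fun t => -∫ τ in (0:ℝ)..t, (Real.sin (t - τ) : ℂ) * ck k τ

lemma ck_cont (k : ℕ) : Continuous (ck k) := by
  induction k with
  | zero => exact Complex.continuous_ofReal.comp Real.continuous_sin
  | succ k ih =>
    have : Continuous fun t : ℝ => ∫ τ in (0:ℝ)..t, (Real.sin (t - τ) : ℂ) * ck k τ := by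
      apply intervalIntegral.continuous_parametric_intervalIntegral_of_continuous
        (f := fun t τ => (Real.sin (t - τ) : ℂ) * ck k τ) _ continuous_id
      have h1 : Continuous fun p : ℝ × ℝ => (Real.sin (p.1 - p.2) : ℂ) :=
        Complex.continuous_ofReal.comp (Real.continuous_sin.comp (continuous_fst.sub continuous_snd))
      exact h1.mul (ih.comp continuous_snd)
    exact this.neg

lemma ck_one : ck 1 (2 * π) = (π : ℂ) := by
  have h : ∫ τ in (0:ℝ)..(2 * π), (Real.sin (2 * π - τ) : ℂ) * ck 0 τ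
      = ∫ τ in (0:ℝ)..(2 * π), ((-(Real.sin τ ^ 2) : ℝ) : ℂ) := by
    apply intervalIntegral.integral_congr
    intro τ _
    simp only [ck]
    rw [Real.sin_two_pi_sub]
    push_cast
    ring
  simp only [ck] at h ⊢
  rw [h, intervalIntegral.integral_ofReal, intervalIntegral.integral_neg, integral_sin_sq]
  simp

lemma re_pos {s : ℝ} (hs : 0 < s) {z : ℂ} (h : ‖z - s‖ ≤ s / 2) : 0 < z.re := by
  have h1 : |(z - s).re| ≤ ‖z - s‖ := Complex.abs_re_le_norm _
  have h2 : (z - (s : ℂ)).re = z.re - s := by simp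
  rw [h2] at h1
  have := abs_le.1 (h1.trans h)
  linarith [this.1]

lemma diff_iter {A : ℂ → ℂ} (hA : ∀ z : ℂ, 0 < z.re → DifferentiableAt ℂ A z) (k : ℕ) :
    ∀ z : ℂ, 0 < z.re → DifferentiableAt ℂ (iteratedDeriv k A) z := by
  have hU : IsOpen {z : ℂ | 0 < z.re} := isOpen_lt continuous_const Complex.continuous_re
  have key : DifferentiableOn ℂ (iteratedDeriv k A) {z : ℂ | 0 < z.re} := by
    induction k with
    | zero =>
      rw [iteratedDeriv_zero]
      exact fun z hz => (hA z hz).differentiableWithinAt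
    | succ k ih =>
      rw [iteratedDeriv_succ]
      exact ih.deriv hU
  intro z hz
  exact (key z hz).differentiableAt (hU.mem_nhds hz)

/-- the error term -/
noncomputable def er (V : ℂ → ℝ → ℂ) (A : ℂ → ℂ) (J : ℕ) (z : ℂ) (t : ℝ) : ℂ :=
  V z t - ∑ k ∈ Finset.range J, ck k t * iteratedDeriv k A z

/-- its derivative -/
noncomputable def de (W : ℂ → ℝ → ℂ) (A : ℂ → ℂ) (J : ℕ) (z : ℂ) (t : ℝ) : ℂ :=
  W z t - ∑ k ∈ Finset.range J, ck k t * iteratedDeriv (k + 1) A z

lemma er_deriv {V W : ℂ → ℝ → ℂ} {A : ℂ → ℂ} (h : AD V W A) (J : ℕ) {z : ℂ} (hz : 0 < z.re)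
    {t : ℝ} (ht : 0 ≤ t) : HasDerivAt (fun w => er V A J w t) (de W A J z t) z := by
  unfold er de
  refine (h.dV z hz t ht).sub ?_
  have := HasDerivAt.fun_sum (u := Finset.range J) (A := fun k w => ck k t * iteratedDeriv k A w)
    (A' := fun k => ck k t * iteratedDeriv (k + 1) A z) (x := z) (fun k _ => by
      have h1 := (diff_iter h.dA k z hz).hasDerivAt
      rw [← iteratedDeriv_succ] at h1
      exact h1.const_mul _)
  exact this

lemma er_succ {V W : ℂ → ℝ → ℂ} {A : ℂ → ℂ} (h : AD V W A) (J : ℕ) {z : ℂ} (hz : 0 < z.re)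
    {t : ℝ} (ht : 0 ≤ t) : er V A (J + 1) z t
      = -∫ τ in (0 : ℝ)..t, (Real.sin (t - τ) : ℂ) * de W A J z τ := by
  have hs : Continuous fun τ : ℝ => (Real.sin (t - τ) : ℂ) :=
    Complex.continuous_ofReal.comp (Real.continuous_sin.comp (continuous_const.sub continuous_id))
  have hW : IntervalIntegrable (fun τ => (Real.sin (t - τ) : ℂ) * W z τ) volume 0 t := by
    apply ContinuousOn.intervalIntegrable
    apply hs.continuousOn.mul
    apply (h.cW z hz).mono
    rw [uIcc_of_le ht]
    exact fun x hx => hx.1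
  have hk : ∀ k ∈ Finset.range J, IntervalIntegrable
      (fun τ => (Real.sin (t - τ) : ℂ) * ck k τ * iteratedDeriv (k + 1) A z) volume 0 t := by
    intro k _
    apply Continuous.intervalIntegrable
    exact (hs.mul (ck_cont k)).mul continuous_const
  have e1 : ∫ τ in (0 : ℝ)..t, (Real.sin (t - τ) : ℂ) * de W A J z τ
      = (∫ τ in (0 : ℝ)..t, (Real.sin (t - τ) : ℂ) * W z τ) -
        ∑ k ∈ Finset.range J, (∫ τ in (0 : ℝ)..t, (Real.sin (t - τ) : ℂ) * ck k τ) *
          iteratedDeriv (k + 1) A z := by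
    have e2 : ∀ τ : ℝ, (Real.sin (t - τ) : ℂ) * de W A J z τ = (Real.sin (t - τ) : ℂ) * W z τ -
        ∑ k ∈ Finset.range J, (Real.sin (t - τ) : ℂ) * ck k τ * iteratedDeriv (k + 1) A z := by
      intro τ
      unfold de
      rw [mul_sub, Finset.mul_sum]
      congr 1
      apply Finset.sum_congr rfl
      intro k _
      ring
    simp_rw [e2]
    rw [intervalIntegral.integral_sub hW, intervalIntegral.integral_finsetSum hk]
    · congr 1
      apply Finset.sum_congr rfl
      intro k _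
      rw [intervalIntegral.integral_mul_const]
    · apply Continuous.intervalIntegrable
      apply continuous_finsetSum
      intro k _
      exact (hs.mul (ck_cont k)).mul continuous_const
  rw [e1]
  unfold er
  rw [h.duh z hz t ht, Finset.sum_range_succ']
  simp only [ck, iteratedDeriv_zero]
  rw [neg_sub]
  have : ∑ k ∈ Finset.range J, (-∫ τ in (0 : ℝ)..t, (Real.sin (t - τ) : ℂ) * ck k τ) *
      iteratedDeriv (k + 1) A z = -∑ k ∈ Finset.range J,
        (∫ τ in (0 : ℝ)..t, (Real.sin (t - τ) : ℂ) * ck k τ) * iteratedDeriv (k + 1) A z := by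
    rw [← Finset.sum_neg_distrib]
    apply Finset.sum_congr rfl
    intro k _
    ring
  rw [this]
  ring

lemma err {V W : ℂ → ℝ → ℂ} {A : ℂ → ℂ} (h : AD V W A) (T : ℝ) (hT : 0 ≤ T) (J : ℕ) :
    ∃ C : ℝ, 0 ≤ C ∧ ∀ s : ℝ, 0 < s → ∀ z : ℂ, ‖z - s‖ ≤ s / 2 ^ (J + 1) →
      ∀ t ∈ Icc 0 T, ‖er V A J z t‖ ≤ C / s ^ J := by
  induction J with
  | zero =>
    obtain ⟨M, hM⟩ := h.bdd T
    refine ⟨|M|, abs_nonneg _, fun s hs z hz t ht => ?_⟩
    have h1 : ‖z - s‖ ≤ s / 2 := by simpa using hz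
    have h2 := hM s hs z h1 t ht
    simp only [er, Finset.range_zero, Finset.sum_empty, sub_zero, pow_zero, div_one]
    exact h2.trans (le_abs_self M)
  | succ J ih =>
    obtain ⟨C, hC, hb⟩ := ih
    refine ⟨C * 2 ^ (J + 2) * T, by positivity, fun s hs z hz t ht => ?_⟩
    have hp : (0 : ℝ) < 2 ^ (J + 2) := by positivity
    have hr : 0 < s / 2 ^ (J + 2) := by positivity
    have h2r : s / 2 ^ (J + 2) + s / 2 ^ (J + 2) = s / 2 ^ (J + 1) := by
      rw [pow_succ' 2 (J + 1)]
      field_simp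
      norm_num
    have hhalf : s / 2 ^ (J + 1) ≤ s / 2 := by
      apply div_le_div_of_nonneg_left hs.le (by norm_num)
      calc (2 : ℝ) = 2 ^ 1 := by norm_num
        _ ≤ 2 ^ (J + 1) := pow_le_pow_right₀ (by norm_num) (by omega)
    have hw : ∀ w : ℂ, ‖w - z‖ ≤ s / 2 ^ (J + 2) → ‖w - s‖ ≤ s / 2 ^ (J + 1) := by
      intro w hwz
      calc ‖w - s‖ = ‖(w - z) + (z - s)‖ := by ring_nf
        _ ≤ ‖w - z‖ + ‖z - s‖ := norm_add_le _ _
        _ ≤ s / 2 ^ (J + 1) := by rw [← h2r]; exact add_le_add hwz hz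
    have hwre : ∀ w : ℂ, ‖w - z‖ ≤ s / 2 ^ (J + 2) → 0 < w.re := fun w hwz =>
      re_pos hs ((hw w hwz).trans hhalf)
    have hzre : 0 < z.re := hwre z (by simp only [sub_self, norm_zero]; exact hr.le)
    have hD : ∀ τ ∈ Icc 0 T, ‖de W A J z τ‖ ≤ C * 2 ^ (J + 2) / s ^ (J + 1) := by
      intro τ hτ
      rw [← (er_deriv h J hzre hτ.1).deriv]
      have hcauchy := Complex.norm_deriv_le_of_forall_mem_sphere_norm_le (c := z)
        (R := s / 2 ^ (J + 2)) (C := C / s ^ J) (f := fun w => er V A J w τ) hr ?_ ?_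
      · refine hcauchy.trans (le_of_eq ?_)
        field_simp
        ring
      · apply DifferentiableOn.diffContOnCl
        intro w hw'
        rw [closure_ball z hr.ne'] at hw'
        exact (er_deriv h J (hwre w (by rw [← dist_eq_norm]; exact hw')) hτ.1).differentiableAt.differentiableWithinAt
      · intro w hw'
        apply hb s hs w _ τ hτ
        apply hw
        rw [← dist_eq_norm]
        exact le_of_eq hw'
    rw [er_succ h J hzre ht.1, norm_neg]
    have hint := intervalIntegral.norm_integral_le_of_norm_le_const (a := 0) (b := t)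
      (f := fun τ => (Real.sin (t - τ) : ℂ) * de W A J z τ) (C := C * 2 ^ (J + 2) / s ^ (J + 1)) ?_
    · refine hint.trans ?_
      rw [sub_zero, abs_of_nonneg ht.1]
      have : C * 2 ^ (J + 2) / s ^ (J + 1) * t ≤ C * 2 ^ (J + 2) / s ^ (J + 1) * T :=
        mul_le_mul_of_nonneg_left ht.2 (by positivity)
      refine this.trans (le_of_eq ?_)
      ring
    · intro τ hτ
      rw [uIoc_of_le ht.1] at hτ
      rw [norm_mul]
      have h1 : ‖(Real.sin (t - τ) : ℂ)‖ ≤ 1 := by
        rw [Complex.norm_real]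
        exact Real.abs_sin_le_one _
      calc ‖(Real.sin (t - τ) : ℂ)‖ * ‖de W A J z τ‖ ≤ 1 * ‖de W A J z τ‖ :=
            mul_le_mul_of_nonneg_right h1 (norm_nonneg _)
        _ = ‖de W A J z τ‖ := one_mul _
        _ ≤ _ := hD τ ⟨hτ.1.le, hτ.2.trans ht.2⟩

theorem t_EXPN : S_EXPN := by
  intro V W A κ h hA hApos hlow
  have hself : ∀ s : ℝ, 0 < s → ∀ J : ℕ, ‖(s : ℂ) - s‖ ≤ s / 2 ^ (J + 1) := by
    intro s hs J
    rw [sub_self, norm_zero]
    positivity
  have hpi := Real.pi_pos
  have hpi3 := Real.pi_gt_three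
  obtain ⟨M, hM⟩ := h.bdd (2 * π)
  -- first order
  obtain ⟨C1, hC1, hE1⟩ := err h (2 * π) (by positivity) 1
  have hE1' : ∀ s : ℝ, 0 < s → ∀ t ∈ Icc 0 (2 * π),
      ‖V (s : ℂ) t - (Real.sin t : ℂ) * A (s : ℂ)‖ ≤ C1 / s := by
    intro s hs t ht
    have := hE1 s hs s (hself s hs 1) t ht
    simpa [er, ck] using this
  have hAre : ∀ s : ℝ, 0 < s → A (s : ℂ) = ((A (s : ℂ)).re : ℂ) := by
    intro s hs
    apply Complex.ext
    · simp
    · simp [(hApos s hs).1]
  refine ⟨?_, ⟨M + C1, ?_⟩, ?_, ?_⟩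
  · intro s hs
    have h1 := (h.dA s (by simpa using hs)).hasDerivAt.real_of_complex
    exact h1.differentiableAt
  · intro s hs
    have hs0 : 0 < s := by linarith
    have ht : π / 2 ∈ Icc 0 (2 * π) := ⟨by positivity, by linarith⟩
    have h1 := hE1' s hs0 (π / 2) ht
    have h2 := hM s hs0 s (by rw [sub_self, norm_zero]; positivity) (π / 2) ht
    rw [Real.sin_pi_div_two, Complex.ofReal_one, one_mul] at h1
    have h3 : C1 / s ≤ C1 := div_le_self hC1 hs
    have h4 : (A (s : ℂ)).re ≤ ‖A (s : ℂ)‖ := Complex.re_le_norm _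
    have h5 : ‖A (s : ℂ)‖ ≤ ‖V (s : ℂ) (π / 2)‖ + ‖V (s : ℂ) (π / 2) - A (s : ℂ)‖ := by
      calc ‖A (s : ℂ)‖ = ‖V (s : ℂ) (π / 2) - (V (s : ℂ) (π / 2) - A (s : ℂ))‖ := by ring_nf
        _ ≤ _ := norm_sub_le _ _
    linarith
  · -- tends to zero
    have hb : ∀ s : ℝ, 1 ≤ s → (A (s : ℂ)).re ≤ (π / 4 + C1 * π / 2) * (1 / Real.sqrt s) := by
      intro s hs
      have hs0 : 0 < s := by linarith
      have hq : 0 < Real.sqrt s := Real.sqrt_pos.2 hs0
      have hq1 : 1 ≤ Real.sqrt s := by rw [Real.one_le_sqrt]; exact hs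
      set ε : ℝ := 1 / Real.sqrt s with hε
      have hε0 : 0 < ε := by positivity
      have hε1 : ε ≤ 1 := by rw [hε, div_le_one hq]; exact hq1
      have hεε : ε * ε = 1 / s := by
        rw [hε]
        rw [div_mul_div_comm, one_mul, Real.mul_self_sqrt hs0.le]
      have ht : 2 * π - ε ∈ Icc 0 (2 * π) := ⟨by linarith, by linarith⟩
      have h1 := hE1' s hs0 _ ht
      have h2 := hlow s hs0 (2 * π - ε) ht.1
      rw [Real.sin_two_pi_sub] at h1
      rw [Real.cos_two_pi_sub] at h2
      have h3 := (Complex.re_le_norm _).trans h1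
      have h4 : (V (s : ℂ) (2 * π - ε) - ((-Real.sin ε : ℝ) : ℂ) * A (s : ℂ)).re
          = (V (s : ℂ) (2 * π - ε)).re + Real.sin ε * (A (s : ℂ)).re := by
        rw [Complex.sub_re, Complex.re_ofReal_mul]
        ring
      rw [h4] at h3
      have h5 := Real.one_sub_sq_div_two_le_cos (x := ε)
      have h6 : 2 / π * ε ≤ Real.sin ε := Real.mul_le_sin hε0.le (by linarith)
      have hApos' := (hApos s hs0).2
      have h7 : 2 / π * ε * (A (s : ℂ)).re ≤ Real.sin ε * (A (s : ℂ)).re :=
        mul_le_mul_of_nonneg_right h6 hApos'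
      have h8 : C1 / s = C1 * (ε * ε) := by rw [hεε]; ring
      have h9 : 2 / π * ε * (A (s : ℂ)).re ≤ ε * ε / 2 + C1 * (ε * ε) := by nlinarith
      have h10 : 2 / π * (A (s : ℂ)).re ≤ ε / 2 + C1 * ε := by
        have : ε * (2 / π * (A (s : ℂ)).re) ≤ ε * (ε / 2 + C1 * ε) := by nlinarith
        exact le_of_mul_le_mul_left this hε0
      have h11 : (A (s : ℂ)).re = π / 2 * (2 / π * (A (s : ℂ)).re) := by field_simp
      rw [h11]
      calc π / 2 * (2 / π * (A (s : ℂ)).re) ≤ π / 2 * (ε / 2 + C1 * ε) :=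
            mul_le_mul_of_nonneg_left h10 (by positivity)
        _ = (π / 4 + C1 * π / 2) * ε := by ring
    have hlim : Tendsto (fun s : ℝ => (π / 4 + C1 * π / 2) * (1 / Real.sqrt s)) atTop (𝓝 0) := by
      have h1 : Tendsto (fun s : ℝ => 1 / Real.sqrt s) atTop (𝓝 0) := by
        have := tendsto_inv_atTop_zero.comp Real.tendsto_sqrt_atTop
        simpa [Function.comp_def, one_div] using this
      simpa using h1.const_mul (π / 4 + C1 * π / 2)
    refine tendsto_of_tendsto_of_tendsto_of_le_of_le' tendsto_const_nhds hlim ?_ ?_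
    · filter_upwards [eventually_gt_atTop 0] with s hs
      exact (hApos s hs).2
    · filter_upwards [eventually_ge_atTop 1] with s hs
      exact hb s hs
  · intro J
    obtain ⟨C, hC, hE⟩ := err h (2 * π) (by positivity) (J + 2)
    set K : ℝ := ∑ k ∈ Finset.range J, ‖ck (k + 2) (2 * π)‖ * ((k + 2).factorial * |κ| * 2 ^ (k + 2)) with hK
    have hK0 : 0 ≤ K := Finset.sum_nonneg fun k _ => by positivity
    refine ⟨K + C, fun s hs => ?_⟩
    have hs0 : 0 < s := by linarith
    set α : ℝ := (A ((9 / 2 * s : ℝ) : ℂ)).re with hα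
    have hα0 : 0 ≤ α := (hApos _ (by positivity)).2
    have h1 := hE s hs0 s (hself s hs0 (J + 2)) (2 * π) ⟨by positivity, le_refl _⟩
    have hder : deriv (fun s : ℝ => (A (s : ℂ)).re) s = (deriv A s).re :=
      (h.dA s (by simpa using hs0)).hasDerivAt.real_of_complex.deriv
    rw [hder]
    have hit : ∀ k, 2 ≤ k → ‖iteratedDeriv k A s‖ ≤ (k.factorial * |κ| * 2 ^ k) * (α / s ^ 2) := by
      intro k hk
      have hc := Complex.norm_iteratedDeriv_le_of_forall_mem_sphere_norm_le (c := (s : ℂ)) k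
        (R := s / 2) (C := |κ| * α) (f := A) (by positivity) ?_ ?_
      · refine hc.trans ?_
        have e : (k.factorial : ℝ) * (|κ| * α) / (s / 2) ^ k
            = (k.factorial * |κ| * 2 ^ k) * (α / s ^ k) := by
          rw [div_pow]
          field_simp
        rw [e]
        apply mul_le_mul_of_nonneg_left _ (by positivity)
        apply div_le_div_of_nonneg_left hα0 (by positivity)
        exact pow_le_pow_right₀ hs hk
      · apply DifferentiableOn.diffContOnCl
        intro w hw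
        rw [closure_ball _ (by positivity)] at hw
        apply (h.dA w _).differentiableWithinAt
        apply re_pos hs0
        rw [← dist_eq_norm]
        exact hw
      · intro w hw
        refine (hA s hs0 w (by rw [← dist_eq_norm]; exact le_of_eq hw)).trans ?_
        exact mul_le_mul_of_nonneg_right (le_abs_self κ) hα0
    -- split the sum
    have hsum : ∑ k ∈ Finset.range (J + 2), ck k (2 * π) * iteratedDeriv k A (s : ℂ)
        = (∑ k ∈ Finset.range J, ck (k + 2) (2 * π) * iteratedDeriv (k + 2) A (s : ℂ))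
          + (π : ℂ) * deriv A s := by
      rw [Finset.sum_range_succ', Finset.sum_range_succ']
      rw [ck_one, iteratedDeriv_one]
      simp [ck]
    set S : ℂ := ∑ k ∈ Finset.range J, ck (k + 2) (2 * π) * iteratedDeriv (k + 2) A (s : ℂ) with hS
    have hSn : ‖S‖ ≤ K * (α / s ^ 2) := by
      rw [hS, hK, Finset.sum_mul]
      refine (norm_sum_le _ _).trans (Finset.sum_le_sum fun k _ => ?_)
      rw [norm_mul, mul_assoc]
      exact mul_le_mul_of_nonneg_left (hit (k + 2) (by omega)) (norm_nonneg _)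
    have hVpos : 0 ≤ (V (s : ℂ) (2 * π)).re := by
      have := hlow s hs0 (2 * π) (by positivity)
      rw [Real.cos_two_pi] at this
      linarith
    have h2 : (er V A (J + 2) (s : ℂ) (2 * π)).re
        = (V (s : ℂ) (2 * π)).re - (S.re + π * (deriv A s).re) := by
      unfold er
      rw [hsum]
      simp [Complex.sub_re, Complex.add_re, Complex.re_ofReal_mul]
    have h3 := (Complex.re_le_norm _).trans h1
    rw [h2] at h3
    have h4 : S.re ≤ K * (α / s ^ 2) := (Complex.re_le_norm _).trans hSn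
    have h5 : C / s ^ (J + 2) ≤ C / s ^ (J + 1) := by
      apply div_le_div_of_nonneg_left hC (by positivity)
      exact pow_le_pow_right₀ hs (by omega)
    have h6 : -(K * (α / s ^ 2) + C / s ^ (J + 1)) ≤ π * (deriv A s).re := by linarith
    have h7 : 0 ≤ α / s ^ 2 := by positivity
    have h8 : 0 ≤ 1 / s ^ (J + 1) := by positivity
    have h9 : C / s ^ (J + 1) = C * (1 / s ^ (J + 1)) := by ring
    rw [h9] at h6
    by_cases hneg : 0 ≤ (deriv A s).re
    · have : 0 ≤ (K + C) * (α / s ^ 2 + 1 / s ^ (J + 1)) := by positivity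
      linarith
    · push_neg at hneg
      have h10 : π * (deriv A s).re ≤ (deriv A s).re := by nlinarith
      have h11 : 0 ≤ K * (1 / s ^ (J + 1)) := by positivity
      have h12 : 0 ≤ C * (α / s ^ 2) := by positivity
      nlinarith

end Pool.Agent.X193.HS
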